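import Pool.Agent.Helper76.RT.D3

/-!
# Project RT, block B: RI_mono, RI_fib, RI_arcs
-/

open MeasureTheory Real Set Filter Topology

set_option autoImplicit false

namespace Pool.Agent.Helper60.RT

open Pool.Agent.Helper22.AE
open Pool.Agent.Helper22.AC (IsWt)
open Pool.Agent.Helper92.GC (dt tp Tq uu tt arc dd sqa m6)
open Pool.Agent.Helper92.DT (m12 IsMul12 m12_nonneg)
open Pool.Agent.Helper60.LT (Fr Tf xf yf df vf fr ac co Cut BB PP)
open Pool.Agent.Helper60.QL (R3 nm pA xA sA TA Cone)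

theorem RI_mono {e : Fr} {B B' X : ℝ} (hB : 1 ≤ B) (h : B ≤ B') (hX : 0 ≤ X) (S : Finset (ℤ × ℤ)) : RI e B X S ≤ RI e B' X S := by
  have hB0 : 0 < B := by linarith
  unfold RI
  refine (lintegral_mono_set (Icc_subset_Icc (inv_anti₀ hB0 h) h)).trans
    (lintegral_mono fun s => lintegral_mono_set (Icc_subset_Icc ?_ ?_))
  · exact div_le_div_of_nonneg_left hX hB0 h
  · exact mul_le_mul_of_nonneg_right h hX

private theorem ee_cont85 : Continuous ee := by
  unfold ee
  fun_prop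

private theorem tp_int85 (S : Finset (ℤ × ℤ)) (a : ℤ × ℤ → ℂ) : IntegrableOn (fun c => ‖tp S a c‖ ^ 12) Tq := by
  refine ContinuousOn.integrableOn_compact (isCompact_Icc.prod isCompact_Icc) ?_
  refine Continuous.continuousOn (Continuous.pow (Continuous.norm ?_) 12)
  unfold tp
  refine continuous_finsetSum _ fun k _ => continuous_const.mul (ee_cont85.comp ?_)
  unfold dt
  fun_prop

private theorem m12_fib85 {ι : Type} [DecidableEq ι] (S : Finset (ℤ × ℤ)) (g : ℤ × ℤ → ι) (P : Finset ι) (hP : ∀ k ∈ S, g k ∈ P)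
    (a : ℤ × ℤ → ℂ) : m12 S a ≤ (P.card : ℝ) ^ 11 * ∑ i ∈ P, m12 (S.filter (fun k => g k = i)) a := by
  have h1 : ∀ c, ‖tp S a c‖ ^ 12 ≤ (P.card : ℝ) ^ 11 * ∑ i ∈ P, ‖tp (S.filter (fun k => g k = i)) a c‖ ^ 12 := by
    intro c
    have e : tp S a c = ∑ i ∈ P, tp (S.filter (fun k => g k = i)) a c := by
      unfold tp
      exact (Finset.sum_fiberwise_of_maps_to hP _).symm
    rw [e]
    have h2 := pow_sum_le_card_mul_sum_pow (s := P) (f := fun i => ‖tp (S.filter (fun k => g k = i)) a c‖) (fun i _ => norm_nonneg _) 11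
    exact (pow_le_pow_left₀ (norm_nonneg _) (norm_sum_le _ _) 12).trans h2
  unfold m12
  rw [← integral_finsetSum _ (fun i _ => tp_int85 _ _), ← integral_const_mul]
  refine integral_mono (tp_int85 _ _) ?_ h1
  exact (integrable_finsetSum _ fun i _ => tp_int85 _ a).const_mul _

/-- splitting into the fibres of a map -/
theorem RI_fib {ι : Type} [DecidableEq ι] (e : Fr) (B X : ℝ) (S : Finset (ℤ × ℤ)) (g : ℤ × ℤ → ι) (P : Finset ι) (hP : ∀ k ∈ S, g k ∈ P) :
    RI e B X S ≤ ENNReal.ofReal ((P.card : ℝ) ^ 11) * ∑ i ∈ P, RI e B X (S.filter (fun k => g k = i)) := by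
  simp only [RI_rect]
  have hm : ∀ T : Finset (ℤ × ℤ), Measurable (fun q : ℝ × ℝ => ENNReal.ofReal (mr T q.1 (st q.2 e))) :=
    fun T => ENNReal.measurable_ofReal.comp (mr_cont e T).measurable
  rw [← lintegral_finsetSum _ (fun i _ => hm _), ← lintegral_const_mul _ (Finset.measurable_sum _ fun i _ => hm _)]
  refine lintegral_mono fun q => ?_
  simp only
  have h0 : ∀ i ∈ P, 0 ≤ mr (S.filter (fun k => g k = i)) q.1 (st q.2 e) := fun i _ => m12_nonneg _ _
  rw [← ENNReal.ofReal_sum_of_nonneg h0, ← ENNReal.ofReal_mul (by positivity)]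
  exact ENNReal.ofReal_le_ofReal (m12_fib85 S g P hP _)

private theorem mem_arc85 {β : ℝ} {S : Finset (ℤ × ℤ)} {N j : ℕ} {k : ℤ × ℤ} :
    k ∈ arc β S N j ↔ k ∈ S ∧ ⌊(N : ℝ) * ((tt β k + 6) / 12)⌋₊ = j := by
  classical
  unfold arc
  rw [Finset.mem_filter]

theorem RI_arcs (e : Fr) (B X : ℝ) {H lam : ℝ} {S : Finset (ℤ × ℤ)} {N : ℕ} (hH : 0 < H) (hl : 0 < lam) (hS : Cone H lam S) (hN : 1 ≤ N) :
    RI e B X S ≤ ENNReal.ofReal ((N : ℝ) ^ 11) * ∑ r ∈ Finset.range N, RI e B X (arc 0 S N r) := by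
  have h := RI_fib e B X S (fun k => ⌊(N : ℝ) * ((tt 0 k + 6) / 12)⌋₊) (Finset.range N) fun k hk => ?_
  · rw [Finset.card_range] at h
    exact h
  · obtain ⟨h1, h2, h3⟩ := hS k hk
    have h0 : (0 : ℝ) < k.1 := lt_of_lt_of_le (by positivity) h1
    have hu : uu 0 k = k.1 := by unfold uu; ring
    have ht : |tt 0 k| ≤ 2 := by
      unfold tt
      rw [hu, abs_div, abs_of_pos h0, div_le_iff₀ h0]
      exact h3
    have hN0 : (0 : ℝ) < N := by exact_mod_cast hN
    have ht' := abs_le.1 ht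
    rw [Finset.mem_range, Nat.floor_lt (by have : 0 ≤ (tt 0 k + 6) / 12 := by linarith
                                           positivity)]
    have : (tt 0 k + 6) / 12 < 1 := by linarith
    nlinarith

end Pool.Agent.Helper60.RT
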